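import Pool.Agent.H546.T75b
import Pool.Agent.H888.L1I.B75

set_option autoImplicit false

/-!
# `∑ C(2k,k)² C(3k,k) / (-8640)^k` modulo `p²` (Q1)

For every prime `p > 5` the congruence of the question holds; for `p = 5` it fails (`5` divides `8640`).

The proof: modulo `p²` the sum is determined by a Legendre polynomial at `z`, `40 z = 20 - 9√5` (Clausen); the
elliptic curve attached to `z` has complex multiplication by the order of discriminant `-75`, with isogenies of
degrees `7` and `3` to its conjugate.  Over the Witt vectors of an algebraic closure of `ZMod p` a combination of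
these isogenies lifts the Frobenius, which gives the value `a² - 2p`, where `4p = a² + 3b²` and `5 ∣ ab`.
Modulo `p` an isogeny of degree `5` to a curve `y² = x³ + c` gives the square of the Legendre value as
`4x²·10^((p-1)/3)`, and this decides which of `2x`, `x+3y`, `x-3y` is `a`.
-/

open Finset

namespace Pool.Agent.Results.MP_5c57f5_nt.EightySixForty

/-- the sum `S_p = ∑_{k<p} C(2k,k)² C(3k,k) / (-8640)^k` -/
def S (p : ℕ) : ℚ :=
  ∑ k ∈ range p, (((2 * k).choose k : ℚ) ^ 2 * ((3 * k).choose k : ℚ)) / (-8640) ^ k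

/-- congruence modulo `p²` of rational numbers: `(a - b) / p²` has denominator prime to `p` -/
def Cong (p : ℕ) (a b : ℚ) : Prop := p.Coprime ((a - b) / (p : ℚ) ^ 2).den

theorem five : ¬ Cong 5 (S 5) 0 := by
  unfold Cong S
  simp only [Nat.choose_eq_descFactorial_div_factorial]
  decide +kernel

theorem result :
    (∀ (p : ℕ) [Fact p.Prime], 5 < p →
      (p % 3 = 1 → ∀ x y : ℤ, (p : ℤ) = x ^ 2 + 3 * y ^ 2 →
        ((10 : ZMod p) ^ ((p - 1) / 3) = 1 → Cong p (S p) (4 * x ^ 2 - 2 * p)) ∧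
        ((10 : ZMod p) ^ ((p - 1) / 3) = 1 / 2 * (-1 - (x : ZMod p) / (y : ZMod p)) →
          Cong p (S p) (p - 2 * x ^ 2 + 6 * x * y)) ∧
        ((10 : ZMod p) ^ ((p - 1) / 3) = 1 / 2 * (-1 + (x : ZMod p) / (y : ZMod p)) →
          Cong p (S p) (p - 2 * x ^ 2 - 6 * x * y))) ∧
      (p % 3 = 2 → Cong p (S p) 0)) ∧
    ¬ Cong 5 (S 5) 0 := by
  refine ⟨?_, five⟩
  intro p hp h5
  have hM : ¬ (p : ℤ) ∣ -8640 := by
    refine Pool.Agent.H546.ndvd_fac [(2, 6), (3, 3), (5, 1)] ?_ (by norm_num)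
    simp
    exact ⟨⟨by norm_num, by omega⟩, ⟨by norm_num, by omega⟩, ⟨by norm_num, by omega⟩⟩
  obtain ⟨wi, hwi⟩ := Pool.Agent.H546.inv_exists hM
  have tr : ∀ (E : ℤ) (q : ℚ), q = (E : ℚ) → ∑ k ∈ range p, (k.centralBinom : ZMod (p ^ 2)) *
      ((Pool.Agent.Q267.MW.u3 k : ℕ) : ZMod (p ^ 2)) * wi ^ k = ((E : ℤ) : ZMod (p ^ 2)) →
      Cong p (S p) q := by
    intro E q hq hE
    have h := Pool.Agent.H546.tr3 hM hwi E hE
    unfold Cong S
    rw [hq]
    push_cast at h
    exact h
  have hpz : Prime (p : ℤ) := Nat.prime_iff_prime_int.mp hp.out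
  constructor
  · intro hc3 x y hxy
    obtain ⟨s, z, hs, hz, hred⟩ := Pool.Agent.H546.t75_red p h5 hwi
    have hB := Pool.Agent.H888.L1I.partB (k := Pool.Agent.H546.kb p) hc3 h5 x y hxy hs hz
    rw [hB] at hred
    have inj : Function.Injective (ZMod.castHom (dvd_refl p) (Pool.Agent.H546.kb p)) :=
      ZMod.castHom_injective _
    have val : ∀ a b : ℤ, 4 * (p : ℤ) = a ^ 2 + 3 * b ^ 2 → (5 : ℤ) ∣ a * b →
        (a : ZMod p) ^ 2 = 4 * (x : ZMod p) ^ 2 * 10 ^ ((p - 1) / 3) ∧
        ∀ q : ℚ, q = ((a ^ 2 - 2 * p : ℤ) : ℚ) → Cong p (S p) q := by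
      intro a b h hab
      have he := Pool.Agent.H546.e75 p h5 hc3 hwi h hab
      refine ⟨?_, fun q hq => tr _ q hq he⟩
      rw [he, map_intCast] at hred
      push_cast at hred
      rw [CharP.cast_eq_zero (Pool.Agent.H546.kb p) p, mul_zero, sub_zero] at hred
      apply inj
      rw [map_pow, map_intCast, map_mul, map_mul, map_pow, map_intCast, map_pow, map_ofNat, map_ofNat]
      exact hred
    have f0 : 4 * (p : ℤ) = (2 * x) ^ 2 + 3 * (2 * y) ^ 2 := by rw [hxy]; ring
    have f1 : 4 * (p : ℤ) = (x + 3 * y) ^ 2 + 3 * (x - y) ^ 2 := by rw [hxy]; ring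
    have f2 : 4 * (p : ℤ) = (x - 3 * y) ^ 2 + 3 * (x + y) ^ 2 := by rw [hxy]; ring
    obtain ⟨n0, n0'⟩ := Pool.Agent.H546.nab hp.out h5 f0
    obtain ⟨n1, n1'⟩ := Pool.Agent.H546.nab hp.out h5 f1
    obtain ⟨n2, n2'⟩ := Pool.Agent.H546.nab hp.out h5 f2
    have n3 : ¬ (p : ℤ) ∣ 3 := by
      intro h
      have := Int.le_of_dvd (by norm_num) h
      omega
    have prod : ∀ a b : ℤ, ¬ (p : ℤ) ∣ a → ¬ (p : ℤ) ∣ b → ¬ (p : ℤ) ∣ 3 * a * b := by
      intro a b ha hb h
      rcases hpz.dvd_or_dvd h with h | h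
      · rcases hpz.dvd_or_dvd h with h | h
        · exact n3 h
        · exact ha h
      · exact hb h
    have d01 := prod _ _ n2 n2'
    have d02 := prod _ _ n1 n1'
    have d12 := prod _ _ n0 n0'
    have dv : ∀ a : ℤ, (a : ZMod p) = 0 → (p : ℤ) ∣ a := fun a ha =>
      (ZMod.intCast_zmod_eq_zero_iff_dvd a p).mp ha
    have hy0 : (y : ZMod p) ≠ 0 := by
      intro h0
      exact n0' ((dv y h0).mul_left 2)
    have h2 : (2 : ZMod p) * (1 / 2) = 1 := by
      have h20 : (2 : ZMod p) ≠ 0 := by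
        intro h0
        have := dv 2 (by exact_mod_cast h0)
        have := Int.le_of_dvd (by norm_num) this
        omega
      field_simp
    have hu : (x : ZMod p) / (y : ZMod p) * y = x := div_mul_cancel₀ _ hy0
    have hq0 : (x : ZMod p) ^ 2 + 3 * (y : ZMod p) ^ 2 = 0 := by
      have := congrArg (Int.cast : ℤ → ZMod p) hxy
      push_cast at this
      rw [CharP.cast_eq_zero (ZMod p) p] at this
      exact this.symm
    have g1 : (10 : ZMod p) ^ ((p - 1) / 3) = 1 / 2 * (-1 - (x : ZMod p) / (y : ZMod p)) →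
        4 * (x : ZMod p) ^ 2 * 10 ^ ((p - 1) / 3) = ((x : ZMod p) + 3 * y) ^ 2 := by
      intro hg
      rw [hg]
      generalize (x : ZMod p) / (y : ZMod p) = u at *
      generalize (1 : ZMod p) / 2 = v at *
      linear_combination (2 * (x : ZMod p) ^ 2 * (-1 - u)) * h2 - (3 + 2 * u) * hq0 + 6 * (y : ZMod p) * hu
    have g2 : (10 : ZMod p) ^ ((p - 1) / 3) = 1 / 2 * (-1 + (x : ZMod p) / (y : ZMod p)) →
        4 * (x : ZMod p) ^ 2 * 10 ^ ((p - 1) / 3) = ((x : ZMod p) - 3 * y) ^ 2 := by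
      intro hg
      rw [hg]
      generalize (x : ZMod p) / (y : ZMod p) = u at *
      generalize (1 : ZMod p) / 2 = v at *
      linear_combination (2 * (x : ZMod p) ^ 2 * (-1 + u)) * h2 + (-3 + 2 * u) * hq0 - 6 * (y : ZMod p) * hu
    have hpq : (p : ℚ) = (x : ℚ) ^ 2 + 3 * (y : ℚ) ^ 2 := by exact_mod_cast hxy
    rcases Pool.Agent.H546.ty75 x y with h | h | h
    · obtain ⟨v1, v2⟩ := val _ _ f0 h
      push_cast at v1
      refine ⟨fun _ => v2 _ (by push_cast; ring), fun hg => absurd (dv (3 * (x - 3 * y) * (x + y)) ?_) d01,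
        fun hg => absurd (dv (3 * (x + 3 * y) * (x - y)) ?_) d02⟩
      · push_cast
        linear_combination v1 + g1 hg
      · push_cast
        linear_combination v1 + g2 hg
    · obtain ⟨v1, v2⟩ := val _ _ f1 h
      push_cast at v1
      refine ⟨fun hg => absurd (dv (3 * (x - 3 * y) * (x + y)) ?_) d01,
        fun _ => v2 _ (by push_cast; rw [hpq]; ring), fun hg => absurd (dv (3 * (2 * x) * (2 * y)) ?_) d12⟩
      · rw [hg] at v1
        push_cast
        linear_combination -v1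
      · push_cast
        linear_combination v1 + g2 hg
    · obtain ⟨v1, v2⟩ := val _ _ f2 h
      push_cast at v1
      refine ⟨fun hg => absurd (dv (3 * (x + 3 * y) * (x - y)) ?_) d02,
        fun hg => absurd (dv (3 * (2 * x) * (2 * y)) ?_) d12, fun _ => v2 _ (by push_cast; rw [hpq]; ring)⟩
      · rw [hg] at v1
        push_cast
        linear_combination -v1
      · push_cast
        linear_combination -v1 - g1 hg
  · intro hc3
    have h7 : 7 < p := by
      have h6 : p ≠ 6 := by rintro rfl; exact absurd hp.out (by norm_num)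
      omega
    obtain ⟨-, -, m3⟩ := Pool.Agent.H546.t75_main p h7 hwi
    exact tr 0 0 (by norm_num) (by rw [m3 hc3]; norm_num)

end Pool.Agent.Results.MP_5c57f5_nt.EightySixForty
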